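import Pool.Agent.H38.AE.Targets

/-! Module J1 of board ae_modules (MP_7ecdd4_nt). -/

set_option autoImplicit false

namespace Pool.Agent.H69.AE

open Pool.Agent.H38.AE

theorem rad_pos (n : ℕ) : 0 < rad n := by
  unfold rad
  exact Finset.prod_pos fun p hp => (Nat.prime_of_mem_primeFactors hp).pos

theorem RR_pos (x : ℤ) : 0 < RR x := by
  unfold RR
  exact_mod_cast rad_pos _

/-- the nonzero integers of absolute value at most `H` -/
noncomputable def Tz (H : ℕ) : Finset ℤ := (Finset.Icc (-(H : ℤ)) H).filter fun x => x ≠ 0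

theorem sum_le (H : ℕ) : ∑ x ∈ Tz H, 1 / RR x ≤ 2 * ∑ n ∈ Finset.Icc 1 H, (1 : ℝ) / (rad n : ℝ) := by
  have hmaps : ∀ x ∈ Tz H, x.natAbs ∈ Finset.Icc 1 H := by
    intro x hx
    unfold Tz at hx
    rw [Finset.mem_filter, Finset.mem_Icc] at hx
    rw [Finset.mem_Icc]
    omega
  rw [← Finset.sum_fiberwise_of_maps_to hmaps, Finset.mul_sum]
  refine Finset.sum_le_sum fun n _ => ?_
  have h1 : ∀ x ∈ (Tz H).filter (fun x => x.natAbs = n), 1 / RR x = 1 / (rad n : ℝ) := by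
    intro x hx
    rw [Finset.mem_filter] at hx
    unfold RR
    rw [hx.2]
  rw [Finset.sum_congr rfl h1, Finset.sum_const, nsmul_eq_mul]
  have h2 : ((Tz H).filter (fun x => x.natAbs = n)).card ≤ 2 := by
    refine (Finset.card_le_card (t := {(n : ℤ), -(n : ℤ)}) ?_).trans Finset.card_le_two
    intro x hx
    rw [Finset.mem_filter] at hx
    rw [Finset.mem_insert, Finset.mem_singleton]
    have := hx.2
    omega
  have h3 : (((Tz H).filter (fun x => x.natAbs = n)).card : ℝ) ≤ 2 := by exact_mod_cast h2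
  have h4 : 0 ≤ 1 / (rad n : ℝ) := by positivity
  exact mul_le_mul_of_nonneg_right h3 h4

theorem ncard_le (H : ℕ) (Z : ℝ) (hZ : 0 ≤ Z) :
    ((ST H Z).ncard : ℝ) ≤ Z * (∑ x ∈ Tz H, 1 / RR x) ^ 2 := by
  classical
  obtain ⟨P, hP⟩ : ∃ P : Finset (ℤ × ℤ), P = (Tz H ×ˢ Tz H).filter fun q => RR q.1 * RR q.2 ≤ Z :=
    ⟨_, rfl⟩
  have h1 : (ST H Z).ncard ≤ P.card := by
    rw [← Set.ncard_coe_finset P]
    refine Set.ncard_le_ncard_of_injOn (fun t : ℤ × ℤ × ℤ => (t.1, t.2.1)) ?_ ?_ P.finite_toSet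
    · rintro t ⟨⟨ha, hb, _, _, _, _, _, h4, h5, _⟩, h6⟩
      rw [hP, Finset.mem_coe, Finset.mem_filter, Finset.mem_product]
      unfold Tz
      rw [Finset.mem_filter, Finset.mem_filter, Finset.mem_Icc, Finset.mem_Icc]
      exact ⟨⟨⟨abs_le.1 h4, ha⟩, ⟨abs_le.1 h5, hb⟩⟩, h6⟩
    · rintro t ⟨⟨_, _, _, _, _, _, h, _⟩, _⟩ t' ⟨⟨_, _, _, _, _, _, h', _⟩, _⟩ he
      simp only [Prod.mk.injEq] at he
      refine Prod.ext he.1 (Prod.ext he.2 ?_)
      have := he.1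
      have := he.2
      linarith
  have h2 : (P.card : ℝ) ≤ ∑ q ∈ P, Z * ((1 / RR q.1) * (1 / RR q.2)) := by
    rw [← nsmul_one, ← Finset.sum_const]
    refine Finset.sum_le_sum fun q hq => ?_
    rw [hP, Finset.mem_filter] at hq
    have p1 := RR_pos q.1
    have p2 := RR_pos q.2
    have e : Z * (1 / RR q.1 * (1 / RR q.2)) = Z / (RR q.1 * RR q.2) := by field_simp
    rw [e, le_div_iff₀ (mul_pos p1 p2), one_mul]
    exact hq.2
  have h3 : ∑ q ∈ P, Z * ((1 / RR q.1) * (1 / RR q.2)) ≤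
      ∑ q ∈ Tz H ×ˢ Tz H, Z * ((1 / RR q.1) * (1 / RR q.2)) := by
    rw [hP]
    refine Finset.sum_le_sum_of_subset_of_nonneg (Finset.filter_subset _ _) fun q _ _ => ?_
    have p1 := RR_pos q.1
    have p2 := RR_pos q.2
    positivity
  have h4 : ∑ q ∈ Tz H ×ˢ Tz H, Z * ((1 / RR q.1) * (1 / RR q.2)) =
      Z * (∑ x ∈ Tz H, 1 / RR x) ^ 2 := by
    rw [← Finset.mul_sum, Finset.sum_product, pow_two, Finset.sum_mul_sum]
  have h5 : ((ST H Z).ncard : ℝ) ≤ P.card := by exact_mod_cast h1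
  rw [← h4]
  exact h5.trans (h2.trans h3)

theorem pf_J1 : T_A → T_J1 := by
  intro hA ε hε
  obtain ⟨C, hC, hA⟩ := hA (ε / 2) (by linarith)
  refine ⟨4 * C ^ 2, by positivity, fun H Z hH hZ => ?_⟩
  refine (ncard_le H Z hZ).trans ?_
  have hH0 : (0 : ℝ) < H := by exact_mod_cast hH
  have h1 : ∑ x ∈ Tz H, 1 / RR x ≤ 2 * (C * (H : ℝ) ^ (ε / 2)) :=
    (sum_le H).trans (by have := hA H hH; linarith)
  have h0 : 0 ≤ ∑ x ∈ Tz H, 1 / RR x := Finset.sum_nonneg fun x _ => by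
    have := RR_pos x
    positivity
  have h2 : (∑ x ∈ Tz H, 1 / RR x) ^ 2 ≤ (2 * (C * (H : ℝ) ^ (ε / 2))) ^ 2 :=
    pow_le_pow_left₀ h0 h1 2
  have h3 : (2 * (C * (H : ℝ) ^ (ε / 2))) ^ 2 = 4 * C ^ 2 * (H : ℝ) ^ ε := by
    have : (H : ℝ) ^ ε = (H : ℝ) ^ (ε / 2) * (H : ℝ) ^ (ε / 2) := by
      rw [← Real.rpow_add hH0]; congr 1; ring
    rw [this]; ring
  rw [h3] at h2
  calc Z * (∑ x ∈ Tz H, 1 / RR x) ^ 2 ≤ Z * (4 * C ^ 2 * (H : ℝ) ^ ε) :=
        mul_le_mul_of_nonneg_left h2 hZ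
    _ = 4 * C ^ 2 * (H : ℝ) ^ ε * Z := by ring

end Pool.Agent.H69.AE
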